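import Pool.Agent.Helper26.GG.Gen
import Pool.Agent.Helper26.GG.Density
import Pool.Agent.Helper26.GT.Term
import Pool.Agent.Helper52.GG.Counts
import Pool.Agent.Helper86.GG.Trap
import Pool.Agent.Helper87.MQ.Down
import Pool.Agent.Helper87.MQ.FieldEmb

/-!
# One hundred percent of the maps with a dominant component
-/

set_option autoImplicit false

namespace Pool.Agent.Helper87.GG

open MvPolynomial
open Pool.Agent.Helper26.GT (wd Dom)
open Pool.Agent.Helper26.GG
open Pool.Agent.Helper86.MQ (pm)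
open Pool.Agent.Helper87.MQ (toC toQp exists_down exists_field_emb)
open Pool.Agent.Helper87.DMLP (primesFor not_summable_primesFor prime_of_mem_primesFor)

/-- The exceptional residues. -/
theorem exists_BB (m d e : ℕ) (he : 1 ≤ e) (hed : e < d) :
    ∃ C : ℕ, ∀ (q : ℕ) [Fact q.Prime], ∃ BB : Finset (Gdx m d e → ZMod q),
      BB.card * q ≤ C * q ^ Fintype.card (Gdx m d e) ∧
      ∀ c ∉ BB, T1 c ∧ T2 c ∧ TR he c ≠ 0 := by
  classical
  obtain ⟨C, hC⟩ := bad3 m d he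
  refine ⟨(m + 2) + 2 * (m + 1) + C, fun q hq => ?_⟩
  have hfin : ∀ S : Set (Gdx m d e → ZMod q), S.Finite := fun S => Set.toFinite S
  have hcard : Fintype.card (Gdx m d e → ZMod q) = q ^ Fintype.card (Gdx m d e) := by
    rw [Fintype.card_fun, ZMod.card]
  have h1 := Pool.Agent.Helper52.GG.bad1 (F := ZMod q) (m := m) he hed
  have h2 := Pool.Agent.Helper52.GG.bad2 (F := ZMod q) (m := m) he hed
  have h3 := hC q
  rw [hcard, ZMod.card] at h1 h2
  set S : Set (Gdx m d e → ZMod q) := {c | ¬ T1 c} ∪ {c | ¬ T2 c} ∪ {c | TR he c = 0} with hS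
  refine ⟨(hfin S).toFinset, ?_, ?_⟩
  · rw [← Set.ncard_eq_toFinset_card S (hfin S)]
    have h4 : S.ncard ≤ {c : Gdx m d e → ZMod q | ¬ T1 c}.ncard +
        {c : Gdx m d e → ZMod q | ¬ T2 c}.ncard +
        {c : Gdx m d e → ZMod q | TR he c = 0}.ncard :=
      (Set.ncard_union_le _ _).trans (Nat.add_le_add_right (Set.ncard_union_le _ _) _)
    calc S.ncard * q ≤ _ := Nat.mul_le_mul_right _ h4
      _ ≤ _ := by
          rw [add_mul, add_mul, add_mul, add_mul]
          exact Nat.add_le_add (Nat.add_le_add h1 h2) h3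
  · intro c hc
    rw [Set.Finite.mem_toFinset, hS] at hc
    simp only [Set.mem_union, Set.mem_setOf_eq, not_or, not_not] at hc
    exact ⟨hc.1.1, hc.1.2, hc.2⟩

/-- **Main theorem.** -/
theorem gg_main (m d e : ℕ) (he : 1 ≤ e) (hed : e < d) (A : Finset ℂ) (ε : ℝ) (hε : 0 < ε) :
    ∃ K : ℕ, ∀ B : ℕ, K ≤ B → (gbox m d e B).Finite ∧
      (1 - ε) * ((gbox m d e B).ncard : ℝ) ≤
        (({Φ ∈ gbox m d e B |
          ∀ α : Fin (m + 1) → ℂ, (∀ i, α i ∈ Subfield.closure (A : Set ℂ)) →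
            ∀ F : MvPolynomial (Fin (m + 1)) ℂ, F ≠ 0 →
              {n | eval ((pm (toC Φ))^[n] α) F = 0}.Finite}).ncard : ℝ) := by
  have hd : 2 ≤ d := by omega
  obtain ⟨C, hC⟩ := exists_BB m d e he hed
  choose BB hBB hgood using hC
  obtain ⟨P, K, hP, h⟩ := g_density m d e C (primesFor A) (not_summable_primesFor A)
    (prime_of_mem_primesFor A) (d + 1) ε hε
  refine ⟨K, fun B hB => ?_⟩
  obtain ⟨hfin, hcard⟩ := h BB hBB B hB
  refine ⟨hfin, hcard.trans ?_⟩
  refine Nat.cast_le.2 (Set.ncard_le_ncard ?_ (hfin.subset fun Φ hΦ => hΦ.1))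
  rintro Φ ⟨hΦ, q, hq, hF, c, hc, hpre, hred⟩
  refine ⟨hΦ, fun α hα F hF0 => ?_⟩
  obtain ⟨h1, h2, h3⟩ := hgood q c hc
  obtain ⟨_, ⟨e'⟩⟩ := exists_field_emb A q (hP q hq).1
  obtain ⟨G, hG0, -, hG⟩ := exists_down (Subfield.closure (A : Set ℂ)) F hF0
  have hpd : d < q := (hP q hq).2.2
  have hdom : Dom d e (toQp q Φ) := dom_of he hed hpd hpre hred h3
  have hx := Pool.Agent.Helper86.GG.gtrap hd he hed hpre hred h1 h2 (fun i => e' ⟨α i, hα i⟩)
  have hG1 : MvPolynomial.map e' G ≠ 0 := fun h0 =>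
    hG0 (map_injective e' e'.injective (by rw [h0, map_zero]))
  obtain ⟨k, hk⟩ := Pool.Agent.Helper26.GT.term he hed hdom hG1
  have h4 := Pool.Agent.Helper86.GG.gfinite hd hed hpre hx k hk
  exact h4.subset fun n hn => hG q e' Φ (fun i => ⟨α i, hα i⟩) n hn

end Pool.Agent.Helper87.GG
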